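import Mathlib

namespace Pool.Agent.Results.MP_46a474_nt.Disproof

open Polynomial

/-- Over a finite field of characteristic two whose size is `1 mod 3`, the quartic
`Y ^ 4 + a Y + b` is never irreducible. -/
lemma not_irred {F : Type} [Field F] [Fintype F] [CharP F 2] (hq : Fintype.card F % 3 = 1)
    (a b : F) : ¬ Irreducible (X ^ 4 + C a * X + C b : F[X]) := by
  intro hirr
  set g : F[X] := X ^ 4 + C a * X + C b with hg
  haveI : Fact (Irreducible g) := ⟨hirr⟩
  have hdeg : g.natDegree = 4 := by
    rw [hg]; compute_degree!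
  have hg0 : g ≠ 0 := hirr.ne_zero
  let K := AdjoinRoot g
  haveI : FiniteDimensional F K := (AdjoinRoot.powerBasis hg0).finite
  haveI : Finite K := Module.finite_of_finite F
  haveI : CharP K 2 := charP_of_injective_algebraMap (algebraMap F K).injective 2
  have hfr : Module.finrank F K = 4 := by
    rw [(AdjoinRoot.powerBasis hg0).finrank, AdjoinRoot.powerBasis_dim, hdeg]
  let σ : K →ₐ[F] K := FiniteField.frobeniusAlgHom F K
  have hord : orderOf σ = 4 := by
    rw [← hfr]; exact FiniteField.orderOf_frobeniusAlgHom F K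
  have hσ : ∀ x : K, σ x = x ^ Fintype.card F := fun x => rfl
  let α : K := AdjoinRoot.root g
  let A : K := algebraMap F K a
  let B : K := algebraMap F K b
  have hα : α ^ 4 + A * α + B = 0 := by
    have h := AdjoinRoot.aeval_eq (f := g) g
    rw [AdjoinRoot.mk_self] at h
    have h2 : aeval α (X ^ 4 + C a * X + C b : F[X]) = 0 := h
    simpa [A, B] using h2
  have hA : σ A = A := σ.commutes a
  have hB : σ B = B := σ.commutes b
  have h2 : (2 : K) = 0 := CharP.cast_eq_zero K 2
  -- a power of `σ` fixing `α` is trivial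
  have hfix : ∀ n : ℕ, (σ ^ n) α = α → 4 ∣ n := by
    intro n hn
    have : σ ^ n = 1 := by
      apply AdjoinRoot.algHom_ext
      simpa using hn
    rw [← hord]
    exact orderOf_dvd_of_pow_eq_one this
  have hσα : (σ α) ^ 4 + A * σ α + B = 0 := by
    have := congrArg σ hα
    simpa [map_add, map_mul, map_pow, hA, hB] using this
  set δ : K := σ α - α with hδ
  have hδ4 : δ ^ 4 = A * δ := by
    rw [hδ]
    linear_combination hσα + hα
      + (-2 * (σ α) ^ 3 * α + 3 * (σ α) ^ 2 * α ^ 2 - 2 * (σ α) * α ^ 3 - A * σ α - B) * h2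
  by_cases hδ0 : δ = 0
  · have : (σ ^ 1) α = α := by
      rw [pow_one]; exact sub_eq_zero.mp hδ0
    have := hfix 1 this
    omega
  have hδ3 : δ ^ 3 = A := by
    apply mul_right_cancel₀ hδ0
    rw [← hδ4]; ring
  have hσδ3 : (σ δ) ^ 3 = A := by
    rw [← map_pow, hδ3, hA]
  set ζ : K := σ δ / δ with hζ
  have hA0 : A ≠ 0 := by rw [← hδ3]; exact pow_ne_zero _ hδ0
  have hζ3 : ζ ^ 3 = 1 := by
    rw [hζ, div_pow, hσδ3, hδ3, div_self hA0]
  have hσδ : σ δ = ζ * δ := by
    rw [hζ, div_mul_cancel₀ _ hδ0]
  have hσζ : σ ζ = ζ := by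
    rw [hσ]
    have : Fintype.card F = 3 * (Fintype.card F / 3) + 1 := by omega
    rw [this, pow_succ, pow_mul, hζ3, one_pow, one_mul]
  have e1 : σ α = α + δ := by rw [hδ]; ring
  have e2 : σ (σ α) = α + δ + ζ * δ := by
    conv_lhs => rw [e1]
    rw [map_add, hσδ, e1]
  have e3 : σ (σ (σ α)) = α + δ + ζ * δ + ζ * (ζ * δ) := by
    conv_lhs => rw [e2]
    rw [map_add, map_add, map_mul, hσζ, hσδ, e1]
  by_cases hζ1 : ζ = 1
  · have : (σ ^ 2) α = α := by
      have : (σ ^ 2) α = σ (σ α) := by rw [pow_two]; rfl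
      rw [this, e2, hζ1]
      linear_combination δ * h2
    have := hfix 2 this
    omega
  · have hq' : ζ ^ 2 + ζ + 1 = 0 := by
      have : (ζ - 1) * (ζ ^ 2 + ζ + 1) = 0 := by linear_combination hζ3
      rcases mul_eq_zero.mp this with h | h
      · exact absurd (sub_eq_zero.mp h) hζ1
      · exact h
    have : (σ ^ 3) α = α := by
      have : (σ ^ 3) α = σ (σ (σ α)) := by rw [pow_three]; rfl
      rw [this, e3]
      linear_combination δ * hq'
    have := hfix 3 this
    omega

/-- There are a finite field `F` and an irreducible `f ∈ F[X, Y]` whose total degree `d ≥ 1`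
satisfies `d ^ 4 < #F`, such that `f(a Y + b, Y)` is irreducible for no pair `(a, b)`. -/
theorem result : ∃ (F : Type) (_ : Field F) (_ : Fintype F) (f : MvPolynomial (Fin 2) F),
    Irreducible f ∧ 1 ≤ f.totalDegree ∧ f.totalDegree ^ 4 < Fintype.card F ∧
    ∀ a b : F, ¬ Irreducible
      (MvPolynomial.aeval ![Polynomial.C a * Polynomial.X + Polynomial.C b, Polynomial.X] f) := by
  classical
  let F := GaloisField 2 10
  letI : Fintype F := Fintype.ofFinite F
  have hcard : Fintype.card F = 1024 := by
    rw [← Nat.card_eq_fintype_card, GaloisField.card 2 10 (by norm_num)]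
    norm_num
  let f : MvPolynomial (Fin 2) F := 1 * MvPolynomial.X 0 + MvPolynomial.X 1 ^ 4
  have hirr : Irreducible f := by
    apply MvPolynomial.irreducible_mul_X_add
    · exact one_ne_zero
    · simp
    · intro h
      have := MvPolynomial.vars_pow _ _ h
      simp [MvPolynomial.vars_X] at this
    · exact isRelPrime_one_left
  have hle : f.totalDegree ≤ 4 := by
    refine (MvPolynomial.totalDegree_add _ _).trans (max_le ?_ ?_)
    · rw [one_mul, MvPolynomial.totalDegree_X]; norm_num
    · rw [MvPolynomial.totalDegree_X_pow]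
  have hge : 1 ≤ f.totalDegree := by
    by_contra h
    have h0 : f.totalDegree = 0 := by omega
    rw [MvPolynomial.totalDegree_eq_zero_iff_eq_C] at h0
    have hu := hirr.not_isUnit
    have hne := hirr.ne_zero
    apply hu
    rw [h0]
    apply IsUnit.map
    apply IsUnit.mk0
    intro hc
    apply hne
    rw [h0, hc, map_zero]
  refine ⟨F, inferInstance, inferInstance, f, hirr, hge, ?_, ?_⟩
  · rw [hcard]
    calc f.totalDegree ^ 4 ≤ 4 ^ 4 := Nat.pow_le_pow_left hle 4
      _ < 1024 := by norm_num
  · intro a b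
    have : (MvPolynomial.aeval ![Polynomial.C a * Polynomial.X + Polynomial.C b, Polynomial.X] f)
        = (X ^ 4 + C a * X + C b : F[X]) := by
      simp [f]; ring
    rw [this]
    exact not_irred (by rw [hcard]) a b

end Pool.Agent.Results.MP_46a474_nt.Disproof
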